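import Pool.Agent.H10.PB.Targets

/-!
# MP_b95bd9_al, second theorem, module APPRB
-/

set_option autoImplicit false

open MeasureTheory Filter Topology
open Pool.Agent.H10.PS Pool.Agent.H10.PB

namespace Pool.Agent.H97.PB

/-- **APPRB** -/
theorem apprb : T_APPRB := by
  intro r R N hS hP μ hμ D δ hδ
  have hR := hS.Rn
  have hc := hS.comm
  by_contra hno
  obtain ⟨φ, u, hφ, hu⟩ := exists_sep N D μ δ hδ hno
  have := hμ.prob
  set L := ∑ P, φ P * μ.real (cyl D P) with hL
  set C := ∑ P, |φ P| with hC
  have hC0 : 0 ≤ C := Finset.sum_nonneg fun P _ => abs_nonneg _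
  have hpiece : ∀ F₀ : {F₀ : Subgroup (FG r) // R ≤ F₀},
      ∫ x in XF R F₀, (Phi D φ x - u) ∂μ ≤ 0 := by
    intro F₀
    have h5 := hP F₀ F₀.2 μ hμ D φ u hφ
    have hint : Integrable (Phi D φ) (μ.restrict (XF R F₀)) :=
      Integrable.of_bound (measurable_Phi D φ).aestronglyMeasurable C
        (ae_of_all _ fun x => by rw [Real.norm_eq_abs]; exact Phi_abs_le D φ _)
    rw [integral_sub hint (integrable_const _), integral_const]
    have h6 : (μ.restrict (XF R F₀)).real Set.univ = μ.real (XF R F₀) := by
      simp [Measure.real]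
    rw [h6, smul_eq_mul]
    linarith
  have hcount := countable_over R hR hc
  have hintall : Integrable (fun x => Phi D φ x - u) μ :=
    (Integrable.of_bound (measurable_Phi D φ).aestronglyMeasurable C
        (ae_of_all _ fun x => by rw [Real.norm_eq_abs]; exact Phi_abs_le D φ _)).sub
      (integrable_const _)
  have hdisj : Pairwise (Function.onFun Disjoint
      (fun F₀ : {F₀ : Subgroup (FG r) // R ≤ F₀} => XF R (F₀ : Subgroup (FG r)))) := by
    intro F₁ F₂ hne
    rw [Function.onFun, Set.disjoint_left]
    intro x hx1 hx2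
    apply hne
    apply Subtype.ext
    ext w
    rw [hx1 w, hx2 w]
  have hU := integral_iUnion (μ := μ) (f := fun x => Phi D φ x - u)
    (fun F₀ : {F₀ : Subgroup (FG r) // R ≤ F₀} => measurableSet_XF R (F₀ : Subgroup (FG r)))
    hdisj hintall.integrableOn
  have hfull : μ.restrict (⋃ F₀ : {F₀ : Subgroup (FG r) // R ≤ F₀},
      XF R (F₀ : Subgroup (FG r))) = μ := by
    apply Measure.restrict_eq_self_of_ae_mem
    filter_upwards [hμ.sub] with x hx
    obtain ⟨H, hNH, hxH⟩ := hx
    rw [Set.mem_iUnion]
    exact ⟨⟨H ⊔ R, le_sup_right⟩, (mem_XF_iff R hR _ H x hxH).2 rfl⟩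
  rw [hfull] at hU
  have h7 : ∫ x, (Phi D φ x - u) ∂μ ≤ 0 := by
    rw [hU]
    exact tsum_nonpos hpiece
  have hPhiInt : Integrable (Phi D φ) μ :=
    Integrable.of_bound (measurable_Phi D φ).aestronglyMeasurable C
        (ae_of_all _ fun x => by rw [Real.norm_eq_abs]; exact Phi_abs_le D φ _)
  rw [integral_sub hPhiInt (integrable_const _), integral_const] at h7
  have h8 : ∫ x, Phi D φ x ∂μ = L := by
    unfold Phi
    rw [integral_finsetSum]
    · refine Finset.sum_congr rfl fun P _ => ?_
      rw [integral_const_mul]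
      congr 1
      have h9 : (fun x : XX r => ind01 (x ∈ cyl D (P : Finset (FG r)))) =
          (cyl D (P : Finset (FG r))).indicator (fun _ => (1 : ℝ)) := by
        classical
        funext x
        unfold ind01
        rw [Set.indicator_apply]
      rw [h9, integral_indicator (measurableSet_cyl D _), integral_const]
      simp [Measure.real]
    · intro P _
      refine Integrable.const_mul ?_ _
      exact Integrable.of_bound (measurable_ind01 (measurableSet_cyl D _)).aestronglyMeasurable 1
        (ae_of_all _ fun x => by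
          rw [Real.norm_eq_abs, abs_of_nonneg (ind01_nonneg _)]
          exact ind01_le_one _)
  rw [h8] at h7
  simp at h7
  linarith

end Pool.Agent.H97.PB
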